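import Pool.Agent.OrdThm.OSJ

/-! The one-sided core theorem for plain acyclic colourings. -/

open Classical

namespace Pool.Agent.OSX39

open Pool.Agent.Mader (Acyc Conn)
open Pool.Agent.OrdThm

universe u

variable {V : Type u}

/-- `X` has an acyclic colouring from every palette of at least `p` colours. -/
def PCol (a : V → V → Prop) (X : Finset V) (p : ℕ) : Prop :=
  ∀ P : Finset ℕ, p ≤ P.card →
    ∃ c : V → ℕ, (∀ v ∈ X, c v ∈ P) ∧ ∀ i, Acyc a (X.filter (fun v => c v = i))

theorem pcol_of_lcol {a : V → V → Prop} {m : ℕ} {X : Finset V} {p : ℕ} (h : LCol a m X p) :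
    PCol a X p := by
  intro P hP
  obtain ⟨c, h1, h2⟩ := h P (fun _ => ∅) hP (fun v _ => by simp)
  exact ⟨c, fun v hv => (h1 v hv).1, h2⟩

theorem lcol_of_pcol {a : V → V → Prop} {X : Finset V} {p : ℕ} (h : PCol a X p) :
    LCol a 0 X p := by
  intro P F hP hF
  obtain ⟨c, h1, h2⟩ := h P hP
  refine ⟨c, fun v hv => ⟨h1 v hv, ?_⟩, h2⟩
  have h3 : F v = ∅ := Finset.card_eq_zero.mp (Nat.le_zero.mp (hF v hv))
  rw [h3]
  exact Finset.notMem_empty _

theorem PCol.mono {a : V → V → Prop} {X X' : Finset V} {p p' : ℕ} (h : PCol a X p)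
    (hX : X' ⊆ X) (hp : p ≤ p') : PCol a X' p' := by
  intro P hP
  obtain ⟨c, h1, h2⟩ := h P (hp.trans hP)
  refine ⟨c, fun v hv => h1 v (hX hv), fun i => (h2 i).mono ?_⟩
  intro v hv
  rw [Finset.mem_filter] at hv ⊢
  exact ⟨hX hv.1, hv.2⟩

theorem PCol.empty (a : V → V → Prop) (p : ℕ) : PCol a ∅ p := by
  intro P _
  refine ⟨fun _ => 0, by simp, fun i S hS hne => ?_⟩
  obtain ⟨s, hs⟩ := hne
  have := Finset.mem_filter.mp (hS hs)
  exact absurd this.1 (Finset.notMem_empty _)

theorem PCol.singleton {a : V → V → Prop} (hirr : ∀ v, ¬ a v v) (x : V) : PCol a {x} 1 := by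
  intro P hP
  obtain ⟨k, hk⟩ := Finset.card_pos.mp (lt_of_lt_of_le Nat.zero_lt_one hP)
  refine ⟨fun _ => k, fun _ _ => hk, fun i S hS hne => ?_⟩
  obtain ⟨s, hs⟩ := hne
  refine ⟨s, hs, fun v hv => ?_⟩
  have e1 := Finset.mem_singleton.mp (Finset.mem_filter.mp (hS hs)).1
  have e2 := Finset.mem_singleton.mp (Finset.mem_filter.mp (hS hv)).1
  rw [e1, e2]
  exact hirr x

theorem PCol.union {a : V → V → Prop} {A B : Finset V} {p q : ℕ} (hA : PCol a A p)
    (hB : PCol a B q) : PCol a (A ∪ B) (p + q) := by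
  intro P hP
  obtain ⟨P1, hP1, hP1c⟩ := Finset.exists_subset_card_eq (s := P) (n := p) (by omega)
  obtain ⟨c1, h1, h2⟩ := hA P1 (by omega)
  obtain ⟨c2, h3, h4⟩ := hB (P \ P1) (by
    rw [Finset.card_sdiff_of_subset hP1]
    omega)
  refine ⟨fun v => if v ∈ A then c1 v else c2 v, fun v hv => ?_, fun i S hS hne => ?_⟩
  · by_cases hvA : v ∈ A
    · simp only [if_pos hvA]
      exact hP1 (h1 v hvA)
    · simp only [if_neg hvA]
      exact (Finset.mem_sdiff.mp (h3 v ((Finset.mem_union.mp hv).resolve_left hvA))).1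
  · by_cases hi : i ∈ P1
    · apply h2 i S _ hne
      intro v hv
      obtain ⟨h5, h6⟩ := Finset.mem_filter.mp (hS hv)
      by_cases hvA : v ∈ A
      · simp only [if_pos hvA] at h6
        exact Finset.mem_filter.mpr ⟨hvA, h6⟩
      · simp only [if_neg hvA] at h6
        have h7 := h3 v ((Finset.mem_union.mp h5).resolve_left hvA)
        rw [h6] at h7
        exact absurd hi (Finset.mem_sdiff.mp h7).2
    · apply h4 i S _ hne
      intro v hv
      obtain ⟨h5, h6⟩ := Finset.mem_filter.mp (hS hv)
      by_cases hvA : v ∈ A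
      · simp only [if_pos hvA] at h6
        have h7 := h1 v hvA
        rw [h6] at h7
        exact absurd h7 hi
      · simp only [if_neg hvA] at h6
        exact Finset.mem_filter.mpr ⟨(Finset.mem_union.mp h5).resolve_left hvA, h6⟩

/-- The peeling lemma: if `B` contains no set `P` all of whose vertices are attached in `Y ∪ P`,
then the colouring of attached vertices `C` of `Y` extends to `B`. -/
theorem extend {a : V → V → Prop} {Z : Finset V} {N k q : ℕ} {Y C : Finset V}
    (hq : k + N ≤ q + 1) (hCY : C ⊆ Y) (hC : ∀ v ∈ C, Att a Z N Y v) (hcol : PCol a C q) :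
    ∀ n : ℕ, ∀ B : Finset V, B.card = n → Disjoint B Y → Disjoint (Y ∪ B) Z →
      (∀ P ⊆ B, P.Nonempty → ∃ v ∈ P, ¬ Att a Z N (Y ∪ P) v) → PCol a B k →
      PCol a (C ∪ B) q := by
  intro n
  induction n using Nat.strong_induction_on with
  | _ n ih =>
    intro B hn hBY hBZ hno hB
    rcases Finset.eq_empty_or_nonempty B with hemp | hne
    · rw [hemp, Finset.union_empty]
      exact hcol
    obtain ⟨v, hv, hvn⟩ := hno B (Finset.Subset.refl _) hne
    unfold Att at hvn
    push Not at hvn
    obtain ⟨R, hR, hvR, hRc⟩ := hvn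
    have hlt : (B \ R).card < n := by
      rw [← hn]
      apply Finset.card_lt_card
      rw [Finset.ssubset_iff_of_subset Finset.sdiff_subset]
      exact ⟨v, hv, fun h => (Finset.mem_sdiff.mp h).2 hvR⟩
    have hrec := ih _ hlt (B \ R) rfl (hBY.mono_left Finset.sdiff_subset)
      (hBZ.mono_left (Finset.union_subset_union (Finset.Subset.refl _) Finset.sdiff_subset))
      (fun P hP => hno P (hP.trans Finset.sdiff_subset))
      (hB.mono Finset.sdiff_subset (le_refl _))
    -- attached vertices are outside `R`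
    have hCR : ∀ y ∈ C, y ∉ R := by
      intro y hy hyR
      have h1 := (hC y hy).mono (Finset.subset_union_left (s₂ := B)) (hCY hy) hBZ R hR hyR
      omega
    intro P hP
    obtain ⟨c, h1, h2⟩ := hrec P hP
    set NR := nb a ((Y ∪ B) ∪ Z) R with hNR
    have hFc : (NR.image c).card ≤ NR.card := Finset.card_image_le
    obtain ⟨c', h3, h4⟩ := hB.mono (Finset.inter_subset_left (s₁ := B) (s₂ := R)) (le_refl k)
      (P \ NR.image c) (by
        have h5 := Finset.le_card_sdiff (NR.image c) P
        omega)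
    refine ⟨fun v => if v ∈ B ∩ R then c' v else c v, fun v hv => ?_, fun i S hS hne => ?_⟩
    · by_cases hvI : v ∈ B ∩ R
      · simp only [if_pos hvI]
        exact (Finset.mem_sdiff.mp (h3 v hvI)).1
      · simp only [if_neg hvI]
        apply h1
        rcases Finset.mem_union.mp hv with h5 | h5
        · exact Finset.mem_union_left _ h5
        · exact Finset.mem_union_right _ (Finset.mem_sdiff.mpr
            ⟨h5, fun h6 => hvI (Finset.mem_inter.mpr ⟨h5, h6⟩)⟩)
    · -- the vertices of `S` outside `B ∩ R`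
      have hout : ∀ y ∈ S, y ∉ B ∩ R → y ∈ C ∪ B \ R ∧ c y = i := by
        intro y hy hyI
        obtain ⟨h5, h6⟩ := Finset.mem_filter.mp (hS hy)
        simp only [if_neg hyI] at h6
        refine ⟨?_, h6⟩
        rcases Finset.mem_union.mp h5 with h7 | h7
        · exact Finset.mem_union_left _ h7
        · exact Finset.mem_union_right _ (Finset.mem_sdiff.mpr
            ⟨h7, fun h8 => hyI (Finset.mem_inter.mpr ⟨h7, h8⟩)⟩)
      by_cases hSI : (S ∩ (B ∩ R)).Nonempty
      · have hsub : S ∩ (B ∩ R) ⊆ (B ∩ R).filter (fun v => c' v = i) := by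
          intro y hy
          obtain ⟨h5, h6⟩ := Finset.mem_inter.mp hy
          obtain ⟨h7, h8⟩ := Finset.mem_filter.mp (hS h5)
          simp only [if_pos h6] at h8
          exact Finset.mem_filter.mpr ⟨h6, h8⟩
        obtain ⟨u, hu, hu'⟩ := h4 i _ hsub hSI
        obtain ⟨h5, h6⟩ := Finset.mem_inter.mp hu
        refine ⟨u, h5, fun w hw huw => ?_⟩
        by_cases hwI : w ∈ B ∩ R
        · exact hu' w (Finset.mem_inter.mpr ⟨hw, hwI⟩) huw
        · obtain ⟨h7, h8⟩ := hout w hw hwI
          have hwR : w ∉ R := by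
            rcases Finset.mem_union.mp h7 with h9 | h9
            · exact hCR w h9
            · exact (Finset.mem_sdiff.mp h9).2
          have hwN : w ∈ NR := by
            refine mem_nb.mpr ⟨Finset.mem_union_left _ ?_, hwR, u, (Finset.mem_inter.mp h6).2,
              huw⟩
            rcases Finset.mem_union.mp h7 with h9 | h9
            · exact Finset.mem_union_left _ (hCY h9)
            · exact Finset.mem_union_right _ (Finset.mem_sdiff.mp h9).1
          have h9 := (Finset.mem_filter.mp (hsub hu)).2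
          have h10 := (Finset.mem_sdiff.mp (h3 u h6)).2
          apply h10
          rw [h9, ← h8]
          exact Finset.mem_image_of_mem c hwN
      · apply h2 i S _ hne
        intro y hy
        have hyI : y ∉ B ∩ R := fun h =>
          hSI ⟨y, Finset.mem_inter.mpr ⟨hy, h⟩⟩
        obtain ⟨h5, h6⟩ := hout y hy hyI
        exact Finset.mem_filter.mpr ⟨h5, h6⟩

/-- The exploration with cheap ears and layers. -/
theorem explore {a : V → V → Prop} {X Z Ξ : Finset V} {N k : ℕ} (hirr : ∀ v, ¬ a v v)
    (hd : Disjoint X Z) (hB : Built a Z N Ξ X)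
    (hk : ∀ W ⊆ X \ Ξ, (∀ w ∈ W, Att a Z N (insert w (X \ W)) w) → PCol a W k) :
    ∀ n : ℕ, ∀ Y CB Cp Ca Cb : Finset V, (X \ Y).card = n → Ξ ⊆ Y → Y ⊆ X →
      (∀ v ∈ Y \ Ξ, Att a Z N Y v) → Y \ Ξ ⊆ CB ∪ Cp ∪ Ca ∪ Cb →
      CB ⊆ Y \ Ξ → Cp ⊆ Y \ Ξ → Ca ⊆ Y \ Ξ → Cb ⊆ Y \ Ξ →
      PCol a CB (k + N) → PCol a Cp N → PCol a Cb (k + N) →
      (∀ L ⊆ X \ Y, PCol a L k → PCol a (Ca ∪ L) (k + N)) →
      PCol a (X \ Ξ) (3 * k + 4 * N) := by
  intro n
  induction n using Nat.strong_induction_on with
  | _ n ih =>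
    intro Y CB Cp Ca Cb hn hΞY hYX hnode hcov hCB hCp hCa hCb hcB hcp hcb hca
    have hYZ : Disjoint Y Z := hd.mono_left hYX
    have hCa0 : PCol a Ca (k + N) := by
      have := hca ∅ (Finset.empty_subset _) (PCol.empty a k)
      rwa [Finset.union_empty] at this
    by_cases hYe : Y = X
    · -- the end
      rw [hYe] at hcov
      refine ((((hcB.union hcp).union hCa0).union hcb).mono hcov ?_)
      omega
    set U := (X \ Y).filter (fun v => Att a Z N (insert v Y) v) with hU
    have hUatt : ∀ v ∈ U, Att a Z N (insert v Y) v := fun v hv => (Finset.mem_filter.mp hv).2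
    have hUX : U ⊆ X \ Y := Finset.filter_subset _ _
    have hUΞ : U ⊆ X \ Ξ := fun v hv => Finset.mem_sdiff.mpr
      ⟨(Finset.mem_sdiff.mp (hUX hv)).1, fun h => (Finset.mem_sdiff.mp (hUX hv)).2 (hΞY h)⟩
    have hUcol : PCol a U k := by
      apply hk U hUΞ
      intro w hw
      refine (hUatt w hw).mono ?_ (Finset.mem_insert_self _ _) ?_
      · apply Finset.insert_subset_insert
        intro y hy
        exact Finset.mem_sdiff.mpr ⟨hYX hy, fun h => (Finset.mem_sdiff.mp (hUX h)).2 hy⟩
      · exact hd.mono_left (Finset.insert_subset (Finset.mem_sdiff.mp (hUX hw)).1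
          Finset.sdiff_subset)
    by_cases hear : ∃ P ⊆ X \ Y, P.Nonempty ∧ Disjoint P U ∧ PCol a P k ∧
        ∀ v ∈ P, Att a Z N (Y ∪ P) v
    · -- an ear
      have hfin : ((X \ Y).powerset.filter (fun P => P.Nonempty ∧ Disjoint P U ∧ PCol a P k ∧
          ∀ v ∈ P, Att a Z N (Y ∪ P) v)).Nonempty := by
        obtain ⟨P, hP, h1⟩ := hear
        exact ⟨P, Finset.mem_filter.mpr ⟨Finset.mem_powerset.mpr hP, h1⟩⟩
      obtain ⟨P, hP, hPmin⟩ := Finset.exists_min_image _ Finset.card hfin
      rw [Finset.mem_filter, Finset.mem_powerset] at hP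
      obtain ⟨hPX, ⟨p, hp⟩, hPU, hPcol, hPatt⟩ := hP
      have hPXX : P ⊆ X := hPX.trans Finset.sdiff_subset
      have hPY : Disjoint P Y := by
        rw [Finset.disjoint_left]
        intro v hv
        exact (Finset.mem_sdiff.mp (hPX hv)).2
      have hYPX : Y ∪ P ⊆ X := Finset.union_subset hYX hPXX
      have hYPZ : Disjoint (Y ∪ P) Z := hd.mono_left hYPX
      have hlt : (X \ (Y ∪ P)).card < n := by
        rw [← hn]
        apply Finset.card_lt_card
        rw [Finset.ssubset_iff_of_subset (Finset.sdiff_subset_sdiff (Finset.Subset.refl _)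
          Finset.subset_union_left)]
        exact ⟨p, hPX hp, fun h => (Finset.mem_sdiff.mp h).2 (Finset.mem_union_right _ hp)⟩
      -- no extension inside `P - p`
      have hno : ∀ P' ⊆ P.erase p, P'.Nonempty → ∃ v ∈ P', ¬ Att a Z N (Y ∪ P') v := by
        intro P' hP' hne
        by_contra hcon
        push Not at hcon
        have hP'P : P' ⊆ P := hP'.trans (Finset.erase_subset _ _)
        have h1 := hPmin P' (Finset.mem_filter.mpr ⟨Finset.mem_powerset.mpr (hP'P.trans hPX),
          hne, hPU.mono_left hP'P, hPcol.mono hP'P (le_refl _), hcon⟩)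
        have h2 := Finset.card_le_card hP'
        have h3 := Finset.card_erase_lt_of_mem hp
        omega
      have hnodeC : ∀ C ⊆ Y \ Ξ, ∀ v ∈ C, Att a Z N Y v := fun C hC v hv => hnode v (hC hv)
      have hsubY : ∀ C ⊆ Y \ Ξ, C ⊆ Y := fun C hC => hC.trans Finset.sdiff_subset
      have hcB' : PCol a (CB ∪ P.erase p) (k + N) := by
        refine extend (k := k) (by omega) (hsubY CB hCB) (hnodeC CB hCB) hcB _ (P.erase p) rfl
          (hPY.mono_left (Finset.erase_subset _ _)) (hYPZ.mono_left
            (Finset.union_subset_union (Finset.Subset.refl _) (Finset.erase_subset _ _))) hno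
          (hPcol.mono (Finset.erase_subset _ _) (le_refl _))
      have hcp' : PCol a (Cp ∪ {p}) N := by
        refine extend (k := 1) (by omega) (hsubY Cp hCp) (hnodeC Cp hCp) hcp _ {p} rfl
          (hPY.mono_left (Finset.singleton_subset_iff.mpr hp)) (hYPZ.mono_left
            (Finset.union_subset_union (Finset.Subset.refl _)
              (Finset.singleton_subset_iff.mpr hp))) ?_ (PCol.singleton hirr p)
        intro P' hP' hne
        have hP'e : P' = {p} := by
          rcases Finset.subset_singleton_iff.mp hP' with h | h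
          · exact absurd h hne.ne_empty
          · exact h
        rw [hP'e]
        refine ⟨p, Finset.mem_singleton_self p, fun h => ?_⟩
        have hpU : p ∉ U := fun h' => Finset.disjoint_left.mp hPU hp h'
        apply hpU
        rw [hU, Finset.mem_filter]
        refine ⟨hPX hp, ?_⟩
        rw [Finset.union_comm, ← Finset.insert_eq] at h
        exact h
      have hPΞ : ∀ v ∈ P, v ∈ (Y ∪ P) \ Ξ := fun v hv => Finset.mem_sdiff.mpr
        ⟨Finset.mem_union_right _ hv, fun h => (Finset.mem_sdiff.mp (hPX hv)).2 (hΞY h)⟩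
      have hYΞ : Y \ Ξ ⊆ (Y ∪ P) \ Ξ := Finset.sdiff_subset_sdiff Finset.subset_union_left
        (Finset.Subset.refl _)
      refine ih _ hlt (Y ∪ P) (CB ∪ P.erase p) (Cp ∪ {p}) Ca Cb rfl
        (hΞY.trans Finset.subset_union_left) hYPX ?_ ?_ ?_ ?_ (hCa.trans hYΞ) (hCb.trans hYΞ) hcB'
        hcp' hcb ?_
      · intro v hv
        rw [Finset.mem_sdiff, Finset.mem_union] at hv
        rcases hv.1 with h1 | h1
        · exact (hnode v (Finset.mem_sdiff.mpr ⟨h1, hv.2⟩)).mono Finset.subset_union_left h1 hYPZ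
        · exact hPatt v h1
      · intro v hv
        rw [Finset.mem_sdiff, Finset.mem_union] at hv
        rcases hv.1 with h1 | h1
        · have h2 := hcov (Finset.mem_sdiff.mpr ⟨h1, hv.2⟩)
          simp only [Finset.mem_union] at h2 ⊢
          tauto
        · by_cases hvp : v = p
          · simp only [Finset.mem_union, Finset.mem_singleton]
            tauto
          · have h2 : v ∈ P.erase p := Finset.mem_erase.mpr ⟨hvp, h1⟩
            simp only [Finset.mem_union]
            tauto
      · exact Finset.union_subset (hCB.trans hYΞ)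
          (fun v hv => hPΞ v (Finset.mem_of_mem_erase hv))
      · exact Finset.union_subset (hCp.trans hYΞ) (Finset.singleton_subset_iff.mpr (hPΞ p hp))
      · intro L hL
        exact hca L (hL.trans (Finset.sdiff_subset_sdiff (Finset.Subset.refl _)
          Finset.subset_union_left))
    · -- a layer
      push Not at hear
      obtain ⟨x, hx, hxY, hxa⟩ := hB.exists_next hd Y hYX hΞY hYe
      have hxU : x ∈ U := Finset.mem_filter.mpr ⟨Finset.mem_sdiff.mpr ⟨hx, hxY⟩, hxa⟩
      have hYUX : Y ∪ U ⊆ X := Finset.union_subset hYX (hUX.trans Finset.sdiff_subset)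
      have hYUZ : Disjoint (Y ∪ U) Z := hd.mono_left hYUX
      have hlt : (X \ (Y ∪ U)).card < n := by
        rw [← hn]
        apply Finset.card_lt_card
        rw [Finset.ssubset_iff_of_subset (Finset.sdiff_subset_sdiff (Finset.Subset.refl _)
          Finset.subset_union_left)]
        exact ⟨x, hUX hxU, fun h => (Finset.mem_sdiff.mp h).2 (Finset.mem_union_right _ hxU)⟩
      have hYΞ : Y \ Ξ ⊆ (Y ∪ U) \ Ξ := Finset.sdiff_subset_sdiff Finset.subset_union_left
        (Finset.Subset.refl _)
      have hUY : Disjoint U Y := by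
        rw [Finset.disjoint_left]
        intro v hv
        exact (Finset.mem_sdiff.mp (hUX hv)).2
      refine ih _ hlt (Y ∪ U) CB Cp Cb (Ca ∪ U) rfl (hΞY.trans Finset.subset_union_left) hYUX
        ?_ ?_ (hCB.trans hYΞ) (hCp.trans hYΞ) (hCb.trans hYΞ) ?_ hcB hcp (hca U hUX hUcol) ?_
      · intro v hv
        rw [Finset.mem_sdiff, Finset.mem_union] at hv
        rcases hv.1 with h1 | h1
        · exact (hnode v (Finset.mem_sdiff.mpr ⟨h1, hv.2⟩)).mono Finset.subset_union_left h1
            hYUZ
        · refine (hUatt v h1).mono (Finset.insert_subset (Finset.mem_union_right _ h1)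
            Finset.subset_union_left) (Finset.mem_insert_self _ _) hYUZ
      · intro v hv
        rw [Finset.mem_sdiff, Finset.mem_union] at hv
        rcases hv.1 with h1 | h1
        · have h2 := hcov (Finset.mem_sdiff.mpr ⟨h1, hv.2⟩)
          simp only [Finset.mem_union] at h2 ⊢
          tauto
        · simp only [Finset.mem_union]
          tauto
      · refine Finset.union_subset (hCa.trans hYΞ) (fun v hv => Finset.mem_sdiff.mpr
          ⟨Finset.mem_union_right _ hv, (Finset.mem_sdiff.mp (hUΞ hv)).2⟩)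
      · intro L hL hLcol
        have hLX : L ⊆ X \ Y := hL.trans (Finset.sdiff_subset_sdiff (Finset.Subset.refl _)
          Finset.subset_union_left)
        refine extend (k := k) (by omega) (hCb.trans Finset.sdiff_subset)
          (fun v hv => hnode v (hCb hv)) hcb _ L rfl ?_ ?_ ?_ hLcol
        · rw [Finset.disjoint_left]
          intro v hv
          exact (Finset.mem_sdiff.mp (hLX hv)).2
        · exact hd.mono_left (Finset.union_subset hYX (hLX.trans Finset.sdiff_subset))
        · intro P hP hne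
          refine hear P (hP.trans hLX) hne ?_ (hLcol.mono hP (le_refl _))
          rw [Finset.disjoint_left]
          intro v hv hvU
          exact (Finset.mem_sdiff.mp (hL (hP hv))).2 (Finset.mem_union_right _ hvU)

/-- The one-sided core theorem for plain acyclic colourings: `T` attached to `Z` in `X`, every
`W ⊆ T` which is attached to `Z` outside itself in `X` has an acyclic colouring with `k` colours.
Then `T` has one with `3 k + 13 N` colours. The vertices of `X - T` are not coloured. -/
theorem one_sided_plain {a : V → V → Prop} {X T Z : Finset V} {N k : ℕ} (hirr : ∀ v, ¬ a v v)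
    (hN : 0 < N) (hTX : T ⊆ X) (hd : Disjoint X Z) (hT : ∀ v ∈ T, Att a Z N X v)
    (hk : ∀ W ⊆ T, (∀ w ∈ W, Att a Z N (insert w (X \ W)) w) → PCol a W k) :
    PCol a T (3 * k + 13 * N) := by
  obtain ⟨Ξ, hΞ, hΞT, hno, hB⟩ := order_junk (a := a) (T := T) (X := X) (Z := Z) hN
    (Rich := fun K => ¬ LCol a 0 K (5 * N))
    (fun K K' hKK' hK h => hK (h.mono (le_refl _) hKK' (le_refl _)))
    (fun K hK => by
      have := card_of_not_LCol hirr hK
      omega) hT
  have hcol : LCol a 0 (T ∩ Ξ) (9 * N) := by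
    by_contra hbad
    obtain ⟨K, hKT, hKi, hKb⟩ := halving_junk Z (q := 2 * N) Finset.inter_subset_right hbad
    apply hno K (hKT.trans Finset.inter_subset_left) hKi
    intro h
    exact hKb (h.mono (le_refl _) (Finset.Subset.refl _) (by omega))
  have hexp : PCol a (X \ Ξ) (3 * k + 4 * N) := by
    refine explore hirr hd hB (fun W hW => hk W (hW.trans hΞT)) _ Ξ ∅ ∅ ∅ ∅ rfl
      (Finset.Subset.refl _) hΞ ?_ ?_ (Finset.empty_subset _) (Finset.empty_subset _)
      (Finset.empty_subset _) (Finset.empty_subset _) (PCol.empty a _) (PCol.empty a _)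
      (PCol.empty a _) ?_
    · intro v hv
      rw [Finset.sdiff_self] at hv
      exact absurd hv (Finset.notMem_empty _)
    · rw [Finset.sdiff_self]
      exact Finset.empty_subset _
    · intro L _ hL
      rw [Finset.empty_union]
      exact hL.mono (Finset.Subset.refl _) (by omega)
  refine ((pcol_of_lcol hcol).union hexp).mono ?_ (by omega)
  intro v hv
  by_cases hvΞ : v ∈ Ξ
  · exact Finset.mem_union_left _ (Finset.mem_inter.mpr ⟨hv, hvΞ⟩)
  · exact Finset.mem_union_right _ (Finset.mem_sdiff.mpr ⟨hTX hv, hvΞ⟩)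

end Pool.Agent.OSX39
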